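import Pool.Agent.Lib.MP_72c364_ag.Main

/-! Local zero-cycles of one degree on a smooth hypersurface of degree `d < p` in `n ≥ 4 d - 1`
variables over a global function field come, modulo rational equivalence and modulo `N` prime to
`p`, from one global zero-cycle. -/

namespace Pool.Agent.Results.MP_72c364_ag.ChowApprox

open scoped Classical Polynomial

noncomputable section

/-- The point of projective space over `Λ` with homogeneous coordinates `x`, as a formal sum of
points (zero for `x = 0`). -/
def point {Λ : Type} [Field Λ] {n : ℕ} (x : Fin n → Λ) : Projectivization Λ (Fin n → Λ) →₀ ℤ :=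
  if h : x = 0 then 0 else Finsupp.single (Projectivization.mk Λ x h) 1

/-- For a point `x` with coordinates in a finite extension `E` of `L`: the base change to the
algebraic closure `Λ` of the zero-cycle over `L` that is the push-forward of `x`, that is the sum of
the conjugates of `x` times the inseparable degree of `E / L`. -/
def cycleOf (L Λ : Type) {E : Type} [Field L] [Field Λ] [Field E] [Algebra L Λ] [Algebra L E]
    [FiniteDimensional L E] {n : ℕ} (x : Fin n → E) : Projectivization Λ (Fin n → Λ) →₀ ℤ :=
  Field.finInsepDegree L E • ∑ σ : E →ₐ[L] Λ, point fun a => σ (x a)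

/-- The group of zero-cycles of the projective hypersurface `f = 0` over `L`, embedded by base
change in the formal sums of points over the algebraic closure. -/
def zeroCycles {L : Type} [Field L] {n : ℕ} (f : MvPolynomial (Fin n) L) :
    AddSubgroup (Projectivization (AlgebraicClosure L) (Fin n → AlgebraicClosure L) →₀ ℤ) :=
  AddSubgroup.closure {D | ∃ (E : Type) (_ : Field E) (_ : Algebra L E) (_ : FiniteDimensional L E)
    (x : Fin n → E), x ≠ 0 ∧ MvPolynomial.aeval x f = 0 ∧ D = cycleOf L (AlgebraicClosure L) x}

/-- The subgroup generated by the push-forwards of `γ(0) - γ(1)` for rational curves `γ` on the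
hypersurface over finite extensions of `L`; these cycles are rationally equivalent to zero. -/
def curveRelations {L : Type} [Field L] {n : ℕ} (f : MvPolynomial (Fin n) L) :
    AddSubgroup (Projectivization (AlgebraicClosure L) (Fin n → AlgebraicClosure L) →₀ ℤ) :=
  AddSubgroup.closure {D | ∃ (E : Type) (_ : Field E) (_ : Algebra L E) (_ : FiniteDimensional L E)
    (γ : Fin n → E[X]), MvPolynomial.aeval γ f = 0 ∧ (fun a => (γ a).eval 0) ≠ 0 ∧
      (fun a => (γ a).eval 1) ≠ 0 ∧
        D = cycleOf L (AlgebraicClosure L) (fun a => (γ a).eval 0) -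
          cycleOf L (AlgebraicClosure L) fun a => (γ a).eval 1}

/-- Base change of formal sums of points along an embedding of fields. -/
def extend {Λ Λ' : Type} [Field Λ] [Field Λ'] {n : ℕ} (ι : Λ →+* Λ')
    (D : Projectivization Λ (Fin n → Λ) →₀ ℤ) : Projectivization Λ' (Fin n → Λ') →₀ ℤ :=
  D.sum fun y m => m • point fun a => ι (y.rep a)

/-- The canonical map from `K` to its completion `K_v`. -/
def toCompletion {K : Type} [Field K] (v : Valuation K (WithZero (Multiplicative ℤ))) :
    K →+* v.Completion :=
  UniformSpace.Completion.coeRingHom.comp (WithVal.equiv v).symm.toRingHom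

end

theorem result (F K : Type) [Field F] [Finite F] [Field K] [Algebra (RatFunc F) K]
    [FunctionField F K] (n d : ℕ) (hd : 2 ≤ d) (hp : d < ringChar F) (hn : 4 * d ≤ n + 1)
    (f : MvPolynomial (Fin n) K) (hf : f.IsHomogeneous d)
    (hs : ∀ x : Fin n → AlgebraicClosure K, MvPolynomial.aeval x f = 0 →
      (∀ i, MvPolynomial.aeval x (MvPolynomial.pderiv i f) = 0) → x = 0)
    (N : ℕ) (hN : N.Coprime (ringChar F)) (δ : ℤ)
    (z : ∀ v : Valuation K (WithZero (Multiplicative ℤ)),
      Projectivization (AlgebraicClosure v.Completion) (Fin n → AlgebraicClosure v.Completion) →₀ ℤ)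
    (hz : ∀ v : Valuation K (WithZero (Multiplicative ℤ)), Function.Surjective v →
      z v ∈ zeroCycles (MvPolynomial.map (toCompletion v) f) ∧ Finsupp.degree (z v) = δ) :
    ∃ z0 ∈ zeroCycles f, ∀ v : Valuation K (WithZero (Multiplicative ℤ)), Function.Surjective v →
      ∀ ι : AlgebraicClosure K →+* AlgebraicClosure v.Completion,
        (∀ a, ι (algebraMap K (AlgebraicClosure K) a) =
          algebraMap v.Completion (AlgebraicClosure v.Completion) (toCompletion v a)) →
        ∃ r ∈ curveRelations (MvPolynomial.map (toCompletion v) f),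
          ∃ w ∈ zeroCycles (MvPolynomial.map (toCompletion v) f),
            extend ι z0 - z v = r + N • w := by
  let _ : Algebra F K := ((algebraMap (RatFunc F) K).comp (algebraMap F (RatFunc F))).toAlgebra
  have : IsScalarTower F (RatFunc F) K := IsScalarTower.of_algebraMap_eq fun _ => rfl
  have hp0 : (ringChar F).Prime := CharP.char_is_prime F _
  have := Fact.mk hp0
  have : CharP K (ringChar F) := charP_of_injective_algebraMap (algebraMap F K).injective _
  have h1 : (d : K) ≠ 0 := fun h => by
    have := Nat.le_of_dvd (by omega) ((CharP.cast_eq_zero_iff K (ringChar F) d).1 h)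
    omega
  obtain ⟨z0, h2, h3⟩ := Pool.Agent.CE.main (Pool.Agent.HZ.ff_of_functionField F K) hN
    ⟨hf, Pool.Agent.HZ.ns_of_smooth hf h1 hs,
      fun i hi => Pool.Agent.HZ.final_choose hp0 (by omega) hi, hd, hn⟩ hz
  refine ⟨z0, h2, fun v hv ι hι => ?_⟩
  obtain ⟨r, h4, _, ⟨w, h5, rfl⟩, h6⟩ := AddSubgroup.mem_sup.1 (h3 v hv ι hι)
  exact ⟨r, h4, w, h5, h6.symm⟩

end Pool.Agent.Results.MP_72c364_ag.ChowApprox
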