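import Pool.Agent.Lib.MP_879916_ag.DgMain
import Pool.Agent.Lib.MP_879916_ag.DgExt

/-! Diagonal forms of degree `k` in `2k+1` variables over `F(t)` are isotropic when the finite
field `F` is large. -/

namespace Pool.Agent.Results.MP_72c364_ag.DiagonalPoint

open Pool.Agent.Lib.MP_879916_ag.Dg in
/-- For every degree `k` there is `q₀` such that, over every finite field `F` with at least `q₀`
elements and characteristic `> k (k - 1)`, every diagonal form of degree `k` over `F(t)` in at
least `2k+1` variables has a non-trivial zero over `F(t)`. -/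
theorem result (k : ℕ) (hk : 0 < k) : ∃ q₀ : ℕ, ∀ (F : Type) [Field F] [Fintype F],
    k * (k - 1) < ringChar F → q₀ ≤ Fintype.card F → ∀ m : ℕ, 2 * k + 1 ≤ m →
      ∀ a : Fin m → RatFunc F, ∃ x : Fin m → RatFunc F, x ≠ 0 ∧ ∑ i, a i * x i ^ k = 0 := by
  obtain ⟨q₀, h⟩ := iso_main k hk
  refine ⟨q₀, fun F _ _ hch hq m hm a => ext_aux1 k hm hk (h F ?_ hq) a⟩
  intro b hb0 hb h0
  have := Nat.le_of_dvd hb0 ((ringChar.spec F b).1 h0)
  omega

end Pool.Agent.Results.MP_72c364_ag.DiagonalPoint
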